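import Pool.Agent.N71.SI.FinB
import Pool.Agent.R345.IXEnd
import Pool.Agent.N386.SP.NUM

/-!
# Short intervals: end
-/

set_option autoImplicit false

namespace Pool.Agent.N71.SI

open Finset Filter NumberField Pool.Agent.H38R2.CG Pool.Agent.H38R2.CG2 Pool.Agent.N71.SP
open Pool.Agent.R345.IX (Dof isFund_Dof)
open scoped Classical

/-- the exponent -/
noncomputable def eS (σ a w : ℝ) : ℝ :=
  max 0 ((a - 2 * w * (a * σ - 1)) / (2 * (a * (1 + σ) - 1)))

/-- all but few radicands in a short interval are good -/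
theorem t_SI (P : Set ℕ) (σ : ℝ) (hσ0 : 0 < σ) (hσ1 : σ ≤ 1) (hP : Many P σ)
    (a : ℝ) (ha : 1 < a * σ) (w : ℝ) (hw0 : 0 < w) (hw1 : w ≤ 1) (ε : ℝ) (hε : 0 < ε) :
    ∃ δ : ℝ, 0 < δ ∧ δ ≤ 1 ∧ ∃ x0 : ℕ, ∀ x ≥ x0, ∀ H : ℕ, (x : ℝ) ^ w ≤ H → H ≤ x →
      (((Finset.Ioc x (x + H)).filter (fun d => Squarefree d ∧
        ¬ GoodS P a (eS σ a w + ε) d)).card : ℝ) ≤ 5 * (H * (x : ℝ) ^ (-δ)) := by
  have h_P_N0 : P_N0 := T_N0
  have h_P_N0d : P_N0d := T_N0d
  have h_P_SPL : P_SPL := T_SPL h_P_N0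
  have h_P_N2 : P_N2 := T_N2 h_P_SPL
  have h_P_KR : P_KR := T_KR
  have h_P_PV : P_PV := T_PV
  have h_P_N3a : P_N3a := T_N3a h_P_KR h_P_PV
  have h_P_N3b : P_N3b := T_N3b h_P_KR h_P_PV h_P_N3a
  have h_P_N3 : P_N3 := T_N3 h_P_N2 h_P_N3b
  have hNUM : E_NUM := Pool.Agent.N386.SP.t_NUM
  have ha0 : 0 < a := by
    by_contra h
    push Not at h
    nlinarith
  set θ0 : ℝ := (a - 2 * w * (a * σ - 1)) / (2 * (a * (1 + σ) - 1)) with hθ0
  have hσle : 1 < a := by nlinarith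
  have hden : 0 < 2 * (a * (1 + σ) - 1) := by nlinarith
  set θ : ℝ := eS σ a w with hθ
  have hθnn : 0 ≤ θ := le_max_left _ _
  have hwa : 0 ≤ w * (a * σ - 1) := mul_nonneg hw0.le (by linarith)
  have hθhalf : θ ≤ 1 / 2 := by
    apply max_le (by norm_num)
    rw [div_le_iff₀ hden]
    nlinarith
  set c : ℝ := w + θ with hc
  have hc0 : 0 < c := by linarith
  have hc2 : c ≤ 3 / 2 := by linarith
  have hmain : 1 / 2 - c * (σ - 1 / a) ≤ θ := by
    have hs : 0 < σ - 1 / a := by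
      rw [sub_pos, div_lt_iff₀ ha0]
      linarith
    have key : θ0 * (2 * (a * (1 + σ) - 1)) = a - 2 * w * (a * σ - 1) := by
      rw [hθ0, div_mul_cancel₀ _ hden.ne']
    have h1 : 1 / 2 - w * (σ - 1 / a) = θ0 * (1 + (σ - 1 / a)) := by
      have ha' : a ≠ 0 := ha0.ne'
      field_simp
      linarith
    have h2 : θ0 * (1 + (σ - 1 / a)) ≤ θ * (1 + (σ - 1 / a)) :=
      mul_le_mul_of_nonneg_right (le_max_right _ _) (by linarith)
    have h3 : c * (σ - 1 / a) = w * (σ - 1 / a) + θ * (σ - 1 / a) := by rw [hc]; ring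
    rw [h3]
    linarith
  obtain ⟨δ, hδ, hδ2, X0, hX0⟩ := count_badH hNUM h_P_N3 h_P_N3a h_P_PV P σ hσ0 hσ1 hP a
    ha c w θ hc0 hc2 hw0 hw1 hθnn hmain (by rw [hc]; linarith) (ε / 2) (by positivity)
  obtain ⟨X1, hX1⟩ := Filter.eventually_atTop.1
    (parG P σ hσ0 hσ1 hP a c ha hc0 hc2 1 1 one_pos le_rfl)
  obtain ⟨X2, hX2⟩ := Filter.eventually_atTop.1
    (ERRh.ev_const (ε / 2) (by positivity) ((4 : ℝ) ^ (θ + ε / 2)))
  -- a bad radicand gives a bad discriminant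
  have key : ∀ Y : ℕ, X2 ≤ Y → 1 ≤ Y → ∀ d : ℕ, Y < d → d ≤ 2 * Y →
      Squarefree d → ¬ GoodS P a (θ + ε) d → ∀ X : ℕ, X1 ≤ X → X ≤ 4 * d → d ≤ 2 * X →
      IsFund (Dof d) ∧ BadS P a c (θ + ε / 2) X (Dof d) := by
    intro Y hY2 hY1 d hd1 hd2 hsq hbad X hXX1 hX4 hdX
    have hd : 1 < d := by omega
    refine ⟨isFund_Dof hd hsq, ?_⟩
    unfold GoodS at hbad
    push Not at hbad
    obtain ⟨K, i1, i2, h2, hx, hlt⟩ := hbad
    refine ⟨K, i1, i2, h2, ?_, ?_⟩
    · rw [h_P_N0d K d hd hsq h2 hx]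
      unfold Dof
      split_ifs <;> push_cast <;> rfl
    · intro hle
      refine absurd hle (not_le.2 (lt_of_le_of_lt ?_ hlt))
      have hdr : (0 : ℝ) < d := by
        have : 0 < d := by omega
        exact_mod_cast this
      obtain ⟨-, -, -, -, -, -, -, -, -, hfin⟩ := hX1 X hXX1
      obtain ⟨g1, g2⟩ := hfin d (by
        have : (X : ℝ) ≤ 4 * d := by exact_mod_cast hX4
        linarith) (by exact_mod_cast hdX)
      have hsub : Reach P K ((2 * yS a X : ℕ) : ℝ) (kS a c X) ⊆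
          Reach P K ((Real.log d) ^ a) (3 / 2 * (Real.log d / Real.log (Real.log d))) :=
        reach_mono (by push_cast; exact g1) g2
      have hcard : ((Reach P K ((2 * yS a X : ℕ) : ℝ) (kS a c X)).ncard : ℝ) ≤
          ((Reach P K ((Real.log d) ^ a)
            (3 / 2 * (Real.log d / Real.log (Real.log d)))).ncard : ℝ) := by
        exact_mod_cast Set.ncard_le_ncard hsub (Set.toFinite _)
      have hpow : (X : ℝ) ^ (θ + ε / 2) ≤ (d : ℝ) ^ (θ + ε) := by
        have h4d : (4 : ℝ) ^ (θ + ε / 2) ≤ (d : ℝ) ^ (ε / 2) := hX2 d (by omega)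
        calc (X : ℝ) ^ (θ + ε / 2) ≤ (4 * (d : ℝ)) ^ (θ + ε / 2) := by
              apply Real.rpow_le_rpow (Nat.cast_nonneg _) _ (by positivity)
              exact_mod_cast hX4
          _ = (4 : ℝ) ^ (θ + ε / 2) * (d : ℝ) ^ (θ + ε / 2) :=
              Real.mul_rpow (by norm_num) hdr.le
          _ ≤ (d : ℝ) ^ (ε / 2) * (d : ℝ) ^ (θ + ε / 2) := by gcongr
          _ = (d : ℝ) ^ (θ + ε) := by
              rw [← Real.rpow_add hdr]
              congr 1
              ring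
      exact mul_le_mul hpow hcard (Nat.cast_nonneg _) (by positivity)
  refine ⟨δ, hδ, by linarith, max (max X0 X1) (max X2 1), ?_⟩
  intro Y hY H hYH hHY
  have hY0 : X0 ≤ Y := le_trans (le_trans (le_max_left _ _) (le_max_left _ _)) hY
  have hY1 : X1 ≤ Y := le_trans (le_trans (le_max_right _ _) (le_max_left _ _)) hY
  have hY2 : X2 ≤ Y := le_trans (le_trans (le_max_left _ _) (le_max_right _ _)) hY
  have hY3 : 1 ≤ Y := le_trans (le_trans (le_max_right _ _) (le_max_right _ _)) hY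
  have hYr : (0 : ℝ) < Y := by exact_mod_cast hY3
  set S := (Finset.Ioc Y (Y + H)).filter (fun d => Squarefree d ∧ ¬ GoodS P a (θ + ε) d) with hS
  set A := (Finset.Ioc Y (Y + H)).filter (fun D => IsFund D ∧ BadS P a c (θ + ε / 2) Y D)
    with hA
  set B := (Finset.Ioc (4 * Y) (4 * Y + 4 * H)).filter
    (fun D => IsFund D ∧ BadS P a c (θ + ε / 2) (4 * Y) D) with hB
  have hA' := hX0 Y hY0 H hYH hHY
  have h4w : (((4 * Y : ℕ) : ℝ)) ^ w ≤ ((4 * H : ℕ) : ℝ) := by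
    push_cast
    rw [Real.mul_rpow (by norm_num) hYr.le]
    have h4 : (4 : ℝ) ^ w ≤ 4 := by
      calc (4 : ℝ) ^ w ≤ (4 : ℝ) ^ (1 : ℝ) :=
            Real.rpow_le_rpow_of_exponent_le (by norm_num) hw1
        _ = 4 := Real.rpow_one 4
    exact mul_le_mul h4 hYH (by positivity) (by norm_num)
  have hB' := hX0 (4 * Y) (by omega) (4 * H) h4w (by omega)
  have hinj : S.card ≤ (A ∪ B).card := by
    refine Finset.card_le_card_of_injOn Dof ?_ ?_
    · intro d hd
      rw [Finset.mem_coe] at hd ⊢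
      obtain ⟨h1, h2, h3⟩ := Finset.mem_filter.1 hd
      obtain ⟨h4, h5⟩ := Finset.mem_Ioc.1 h1
      rw [Finset.mem_union]
      by_cases h : d % 4 = 1
      · left
        have hDof : Dof d = d := by unfold Dof; rw [if_pos h]
        have hk := key Y hY2 hY3 d h4 (by omega) h2 h3 Y hY1 (by omega) (by omega)
        rw [hA, Finset.mem_filter, Finset.mem_Ioc]
        exact ⟨by rw [hDof]; exact ⟨h4, h5⟩, hk⟩
      · right
        have hDof : Dof d = 4 * d := by unfold Dof; rw [if_neg h]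
        have hk := key Y hY2 hY3 d h4 (by omega) h2 h3 (4 * Y) (by omega) (by omega)
          (by omega)
        rw [hB, Finset.mem_filter, Finset.mem_Ioc]
        exact ⟨by rw [hDof]; omega, hk⟩
    · intro d _ d' _ hdd
      unfold Dof at hdd
      split_ifs at hdd <;> omega
  have h1 : (S.card : ℝ) ≤ A.card + B.card := by
    exact_mod_cast hinj.trans (Finset.card_union_le _ _)
  have h4Y : (((4 * Y : ℕ) : ℝ)) ^ (-δ) ≤ (Y : ℝ) ^ (-δ) := by
    apply Real.rpow_le_rpow_of_nonpos hYr _ (by linarith)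
    push_cast
    linarith
  have h4H : ((4 * H : ℕ) : ℝ) * (((4 * Y : ℕ) : ℝ)) ^ (-δ) ≤ 4 * (H * (Y : ℝ) ^ (-δ)) := by
    have : ((4 * H : ℕ) : ℝ) = 4 * H := by push_cast; ring
    rw [this, mul_assoc]
    gcongr
  linarith

end Pool.Agent.N71.SI
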