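import Pool.Agent.N519.SP.PAR

/-!
# Short intervals: sizes of the parameters (after helper519)
-/

set_option autoImplicit false

namespace Pool.Agent.N71.SI

open Finset Filter Pool.Agent.N71.SP Pool.Agent.N519.SP
open scoped Classical

/-- sizes of the parameters, for every exponent `0 < c ≤ 3/2` -/
theorem parG (P : Set ℕ) (σ : ℝ) (hσ0 : 0 < σ) (hσ1 : σ ≤ 1) (hP : Many P σ)
    (a c : ℝ) (haσ : 1 < a * σ) (hc0 : 0 < c) (hc2 : c ≤ 3 / 2) (ε B : ℝ) (hε : 0 < ε)
    (hB : 1 ≤ B) :
    ∀ᶠ X : ℕ in atTop,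
    2 ≤ yS a X ∧ ((2 * yS a X : ℕ) : ℝ) ^ (kS a c X) ≤ (X : ℝ) ^ c ∧
    B ^ (kS a c X) ≤ (X : ℝ) ^ ε ∧
    80 * kS a c X ≤ (QQ P (yS a X)).card ∧ 1 ≤ kS a c X ∧
    (X : ℝ) ^ (c * (σ - 1 / a) - ε) ≤ ((QQ P (yS a X)).card.choose (kS a c X) : ℝ) ∧
    1 ≤ (QQ P (yS a X)).card / (2 * kS a c X) ∧
    (X : ℝ) ^ (c * (σ - 1 / a) - ε) ≤
      (((QQ P (yS a X)).card / (2 * kS a c X) : ℕ) : ℝ) ^ (kS a c X) ∧
    (kS a c X : ℝ) * Real.log (2 * yS a X) ≤ c * Real.log X ∧
    ∀ d : ℝ, (X : ℝ) / 4 ≤ d → d ≤ 2 * X → 2 * (yS a X : ℝ) ≤ (Real.log d) ^ a ∧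
      (kS a c X : ℝ) ≤ 3 / 2 * (Real.log d / Real.log (Real.log d)) := by
  obtain ⟨y0, hy0⟩ := hP
  have ha : 1 < a := by nlinarith
  have hLt : Tendsto (fun X : ℕ => Real.log (X : ℝ)) atTop atTop :=
    Real.tendsto_log_atTop.comp tendsto_natCast_atTop_atTop
  have hlt : Tendsto (fun X : ℕ => Real.log (Real.log (X : ℝ))) atTop atTop :=
    Real.tendsto_log_atTop.comp hLt
  have ha0 : 0 < a := by linarith
  obtain ⟨b, hb⟩ : ∃ b : ℝ, b = a * σ - 1 := ⟨_, rfl⟩
  have hb0 : 0 < b := by rw [hb]; linarith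
  have hba : b ≤ a - 1 := by rw [hb]; nlinarith
  have hcc : 0 < min (ε / (2 * a)) (min (1 / (32 * a)) (c / (4 * a))) := by positivity
  filter_upwards [hLt.eventually_ge_atTop (4 * a + 8), hLt.eventually_ge_atTop (8 * (y0 : ℝ)),
    hlt.eventually_ge_atTop 4, hlt.eventually_ge_atTop (2 * (Real.log B / ε) + 2),
    hlt.eventually_ge_atTop (12 / ε), hlt.eventually_ge_atTop (7 / b),
    hLt.eventually (Pool.Agent.R345.IX.ev_ll _ hcc), eventually_ge_atTop 2]
    with X e1 e2 e3 e4 e5 e6 e7 e8
  set L := Real.log (X : ℝ) with hL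
  set l := Real.log L with hl
  obtain ⟨p1, p2, p7, p8, p9, p10⟩ := par1 a c ha hc0 X L l hL hl (by linarith) e3
  set y := yS a X with hy
  set k := kS a c X with hk
  set n0 := (QQ P y).card with hn0
  have hL0 : 0 < L := by linarith
  have hl0 : 0 < l := by linarith
  have hX0 : (0 : ℝ) < X := by
    have : 0 < X := by omega
    exact_mod_cast this
  have hlal : l ≤ a * l := by
    have := mul_le_mul_of_nonneg_right ha.le hl0.le
    linarith
  have hal : 4 ≤ a * l := by linarith
  have hal0 : 0 < a * l := by linarith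
  have hsmall1 : l ≤ ε / (2 * a) * L := e7.trans (mul_le_mul_of_nonneg_right (min_le_left _ _) hL0.le)
  have hsmall2 : l ≤ 1 / (32 * a) * L :=
    e7.trans (mul_le_mul_of_nonneg_right ((min_le_right _ _).trans (min_le_left _ _)) hL0.le)
  have hsmall3 : l ≤ c / (4 * a) * L :=
    e7.trans (mul_le_mul_of_nonneg_right ((min_le_right _ _).trans (min_le_right _ _)) hL0.le)
  have h16 : 32 * (a * l) ≤ L := by
    have : l * (32 * a) ≤ L := by
      calc l * (32 * a) ≤ (1 / (32 * a) * L) * (32 * a) := by gcongr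
        _ = L := by field_simp
    linarith
  have hcLal : 4 ≤ c * L / (a * l) := by
    rw [le_div_iff₀ hal0]
    have : l * (4 * a) ≤ c * L := by
      calc l * (4 * a) ≤ (c / (4 * a) * L) * (4 * a) := by gcongr
        _ = c * L := by field_simp
    linarith
  have hk8r : (3 : ℝ) ≤ k := by linarith
  have hk8 : 1 ≤ k := by
    have : (1 : ℝ) ≤ k := by linarith
    exact_mod_cast this
  have hk0 : (0 : ℝ) < k := by linarith
  -- the number of primes
  have hyy0 : y0 ≤ y := by
    have h1 : (y0 : ℝ) ≤ y := by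
      have hLa : L ≤ L ^ a := by
        have := Real.rpow_le_rpow_of_exponent_le (by linarith : 1 ≤ L) ha.le
        rwa [Real.rpow_one] at this
      linarith
    exact_mod_cast h1
  have hnb := hy0 y hyy0
  have hLap : 0 < L ^ a := by positivity
  have hpow : L ^ (a * σ) = L ^ b * L := by
    rw [hb, Real.rpow_sub_one hL0.ne']
    field_simp
  have hn1 : L ^ b * L / 8 ≤ n0 := by
    refine le_trans ?_ hnb
    have h1 : (L ^ a / 8) ^ σ ≤ (y : ℝ) ^ σ := Real.rpow_le_rpow (by positivity) p1 hσ0.le
    refine le_trans ?_ h1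
    rw [Real.div_rpow hLap.le (by norm_num), ← Real.rpow_mul hL0.le, hpow]
    apply div_le_div_of_nonneg_left (by positivity) (by positivity)
    have := Real.rpow_le_rpow_of_exponent_le (by norm_num : (1 : ℝ) ≤ 8) hσ1
    rwa [Real.rpow_one] at this
  have hkL : (k : ℝ) ≤ 3 * L / (a * l) := by
    refine p8.trans ?_
    rw [div_le_div_iff₀ (by linarith) hal0]
    have h1 := mul_le_mul_of_nonneg_right hc2 (mul_nonneg hL0.le hal0.le)
    have h2 := mul_le_mul_of_nonneg_left hal hL0.le
    nlinarith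
  have hLb : 0 < L ^ b := by positivity
  have hkn : (k : ℝ) * L ^ b ≤ 6 * n0 := by
    calc (k : ℝ) * L ^ b ≤ (3 * L / (a * l)) * L ^ b := by gcongr
      _ ≤ (3 * L / 4) * L ^ b := by gcongr
      _ = 6 * (L ^ b * L / 8) := by ring
      _ ≤ 6 * n0 := by linarith
  have hLblog : Real.log (L ^ b) = b * l := by rw [Real.log_rpow hL0]
  have h6 : 7 ≤ b * l := by
    rw [div_le_iff₀ hb0] at e6
    linarith
  have hLbbig : 1000 ≤ L ^ b := by
    have h1 : Real.exp 7 ≤ L ^ b := by
      rw [← Real.exp_log hLb, hLblog]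
      exact Real.exp_le_exp.2 h6
    have h2 : (1000 : ℝ) ≤ Real.exp 7 := by
      have h3 := Real.exp_one_gt_d9
      have h4 : Real.exp 7 = Real.exp 1 ^ 7 := by
        rw [← Real.exp_nat_mul]
        norm_num
      rw [h4]
      calc (1000 : ℝ) ≤ 2.7182818283 ^ 7 := by norm_num
        _ ≤ Real.exp 1 ^ 7 := by gcongr
    linarith
  have h20 : 80 * k ≤ n0 := by
    have h1 : (80 : ℝ) * k ≤ n0 := by
      have h2 : (k : ℝ) * 1000 ≤ k * L ^ b := by gcongr
      have h3 : (0 : ℝ) ≤ n0 := Nat.cast_nonneg _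
      linarith
    exact_mod_cast h1
  -- (2y)^k ≤ X^c
  have hyk : ((2 * y : ℕ) : ℝ) ^ k ≤ (X : ℝ) ^ c := by
    have hpos : (0 : ℝ) < ((2 * y : ℕ) : ℝ) := by
      have : 0 < 2 * y := by omega
      exact_mod_cast this
    rw [← Real.log_le_log_iff (by positivity) (by positivity), Real.log_pow, Real.log_rpow hX0]
    push_cast
    exact p10
  -- B^k
  have hBk : B ^ k ≤ (X : ℝ) ^ ε := by
    have hB0 : 0 < B := by linarith
    rw [← Real.log_le_log_iff (by positivity) (by positivity), Real.log_pow, Real.log_rpow hX0]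
    have hlogB : 0 ≤ Real.log B := Real.log_nonneg hB
    calc (k : ℝ) * Real.log B ≤ (c * L / (a * l - 2)) * Real.log B := by gcongr
      _ ≤ ε * L := by
        rw [div_mul_eq_mul_div, div_le_iff₀ (by linarith)]
        have h1 : c * Real.log B ≤ ε * (a * l - 2) := by
          have h2 : 2 * (Real.log B / ε) ≤ a * l - 2 := by linarith
          have h3 : 2 * Real.log B ≤ ε * (a * l - 2) := by
            rw [← mul_div_assoc, div_le_iff₀ hε] at h2
            linarith
          have h4 := mul_le_mul_of_nonneg_right hc2 hlogB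
          linarith
        have := mul_le_mul_of_nonneg_left h1 hL0.le
        linarith
  -- number of ideals
  have hM : (X : ℝ) ^ (c * (σ - 1 / a) - ε) ≤ (n0.choose k : ℝ) := by
    have h1 : ((n0 + 1 - k : ℕ) ^ k : ℝ) / (k.factorial : ℝ) ≤ (n0.choose k : ℝ) :=
      Nat.pow_le_choose k n0
    have h2 : (n0 : ℝ) / 2 ≤ ((n0 + 1 - k : ℕ) : ℝ) := by
      rw [Nat.cast_sub (by omega)]
      have : (80 : ℝ) * k ≤ n0 := by exact_mod_cast h20
      push_cast
      linarith
    have h3 : ((k.factorial : ℕ) : ℝ) ≤ (k : ℝ) ^ k := by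
      exact_mod_cast Nat.factorial_le_pow k
    have h4 : ((n0 : ℝ) / 2) ^ k / (k : ℝ) ^ k ≤ (n0.choose k : ℝ) := by
      refine le_trans ?_ h1
      have h5 : (0 : ℝ) < k.factorial := by exact_mod_cast Nat.factorial_pos k
      apply div_le_div₀ (by positivity) _ h5 h3
      gcongr
    refine le_trans ?_ h4
    rw [← div_pow]
    have h5 : L ^ b / 12 ≤ (n0 : ℝ) / 2 / k := by
      rw [le_div_iff₀ hk0]
      linarith
    have h6' : (L ^ b / 12) ^ k ≤ ((n0 : ℝ) / 2 / k) ^ k := by gcongr
    refine le_trans ?_ h6'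
    rw [← Real.log_le_log_iff (by positivity) (by positivity), Real.log_rpow hX0, Real.log_pow,
      Real.log_div hLb.ne' (by norm_num), hLblog]
    have hlog12 : Real.log 12 ≤ 3 := by
      rw [Real.log_le_iff_le_exp (by norm_num)]
      have h3 := Real.exp_one_gt_d9
      have h4 : Real.exp 3 = Real.exp 1 ^ 3 := by
        rw [← Real.exp_nat_mul]
        norm_num
      rw [h4]
      calc (12 : ℝ) ≤ 2.7182818283 ^ 3 := by norm_num
        _ ≤ Real.exp 1 ^ 3 := by gcongr
    have h7 : 0 ≤ b * l - 3 := by linarith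
    calc (c * (σ - 1 / a) - ε) * L ≤ (c * L / (a * l) - 1) * (b * l - 3) := by
          have e9 : (c * L / (a * l) - 1) * (b * l - 3) =
              c * (σ - 1 / a) * L - 3 * c * (L / (a * l)) - b * l + 3 := by
            have hs : σ - 1 / a = b / a := by rw [hb]; field_simp
            rw [hs]
            field_simp
            ring
          rw [e9]
          have h8 : 3 * c * (L / (a * l)) ≤ ε / 2 * L := by
            have h9 : 12 / ε ≤ a * l := by linarith
            rw [div_le_iff₀ hε] at h9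
            rw [← mul_div_assoc, div_le_iff₀ hal0]
            have h10 := mul_le_mul_of_nonneg_left h9 hL0.le
            have h11 := mul_le_mul_of_nonneg_right hc2 hL0.le
            linarith
          have h10 : b * l ≤ ε / 2 * L := by
            calc b * l ≤ a * l := by nlinarith
              _ ≤ a * (ε / (2 * a) * L) := by gcongr
              _ = ε / 2 * L := by field_simp
          linarith
      _ ≤ k * (b * l - Real.log 12) := by
          apply mul_le_mul p9 (by linarith) h7 hk0.le
  -- groups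
  have hj0 : 0 < 2 * k := by omega
  set m := n0 / (2 * k) with hm
  have hmlt : n0 < 2 * k * (m + 1) := by
    have := Nat.lt_mul_div_succ n0 hj0
    rw [hm]
    exact this
  have hmr : L ^ b / 24 ≤ m := by
    have h1 : (n0 : ℝ) < 2 * (k : ℝ) * (m + 1) := by exact_mod_cast hmlt
    have h2 : (k : ℝ) * L ^ b < k * (12 * (m + 1)) := by linarith
    have h3 : L ^ b < 12 * (m + 1) := lt_of_mul_lt_mul_left h2 hk0.le
    linarith
  have hm1 : 1 ≤ m := by
    have : (1 : ℝ) ≤ m := by linarith
    exact_mod_cast this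
  have hmpos : (0 : ℝ) < m := by linarith
  have hlogm : b * l - 4 ≤ Real.log m := by
    have h1 : Real.log (L ^ b / 24) ≤ Real.log m := Real.log_le_log (by positivity) hmr
    rw [Real.log_div hLb.ne' (by norm_num), hLblog] at h1
    have hlog6 : Real.log 24 ≤ 4 := by
      rw [Real.log_le_iff_le_exp (by norm_num)]
      have h3 := Real.exp_one_gt_d9
      have h4 : Real.exp 4 = Real.exp 1 ^ 4 := by
        rw [← Real.exp_nat_mul]
        norm_num
      rw [h4]
      calc (24 : ℝ) ≤ 2.7182818283 ^ 4 := by norm_num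
        _ ≤ Real.exp 1 ^ 4 := by gcongr
    linarith
  have hmj : (X : ℝ) ^ (c * (σ - 1 / a) - ε) ≤ (m : ℝ) ^ k := by
    rw [← Real.log_le_log_iff (by positivity) (by positivity), Real.log_rpow hX0,
      Real.log_pow]
    calc (c * (σ - 1 / a) - ε) * L ≤ (c * L / (a * l) - 1) * (b * l - 4) := by
          have e9 : (c * L / (a * l) - 1) * (b * l - 4) =
              c * (σ - 1 / a) * L - 4 * c * (L / (a * l)) - b * l + 4 := by
            have hs : σ - 1 / a = b / a := by rw [hb]; field_simp
            rw [hs]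
            field_simp
            ring
          rw [e9]
          have h8 : 4 * c * (L / (a * l)) ≤ ε / 2 * L := by
            have h9 : 12 / ε ≤ a * l := by linarith
            rw [div_le_iff₀ hε] at h9
            rw [← mul_div_assoc, div_le_iff₀ hal0]
            have h10 := mul_le_mul_of_nonneg_left h9 hL0.le
            have h11 := mul_le_mul_of_nonneg_right hc2 hL0.le
            linarith
          have h10 : b * l ≤ ε / 2 * L := by
            calc b * l ≤ a * l := by nlinarith
              _ ≤ a * (ε / (2 * a) * L) := by gcongr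
              _ = ε / 2 * L := by field_simp
          linarith
      _ ≤ k * Real.log m := by
          apply mul_le_mul p9 hlogm (by linarith) hk0.le
  refine ⟨p7, hyk, hBk, h20, hk8, hM, hm1, hmj, p10, ?_⟩
  intro d hd1 hd2
  have hd0 : 0 < d := by
    have : (0 : ℝ) < (X : ℝ) / 4 := by positivity
    linarith
  have hlog4 : Real.log 4 ≤ 2 := by
    rw [show (4 : ℝ) = 2 ^ 2 by norm_num, Real.log_pow]
    have := Real.log_two_lt_d9
    push_cast
    linarith
  have hdlow : L - 2 ≤ Real.log d := by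
    have h1 : Real.log ((X : ℝ) / 4) ≤ Real.log d := Real.log_le_log (by positivity) hd1
    rw [Real.log_div hX0.ne' (by norm_num)] at h1
    linarith
  have hdup : Real.log d ≤ L + 1 := by
    have h1 : Real.log d ≤ Real.log (2 * X) := Real.log_le_log hd0 hd2
    rw [Real.log_mul (by norm_num) hX0.ne'] at h1
    have := Real.log_two_lt_d9
    linarith
  have hld0 : 0 < Real.log d := by linarith
  constructor
  · have h1 : (L - 2) ^ a ≤ (Real.log d) ^ a :=
      Real.rpow_le_rpow (by linarith) hdlow ha0.le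
    refine le_trans ?_ h1
    have h2 : L - 2 = L * (1 + (-(2 / L))) := by field_simp; ring
    rw [h2, Real.mul_rpow hL0.le (by
      have : 2 / L ≤ 1 := by rw [div_le_one hL0]; linarith
      linarith)]
    have h3 : 1 + a * (-(2 / L)) ≤ (1 + (-(2 / L))) ^ a :=
      one_add_mul_self_le_rpow_one_add (by
        have : 2 / L ≤ 1 := by rw [div_le_one hL0]; linarith
        linarith) ha.le
    have h4 : (1 : ℝ) / 2 ≤ 1 + a * (-(2 / L)) := by
      have h5 : a * (2 / L) ≤ 1 / 2 := by
        rw [← mul_div_assoc, div_le_iff₀ hL0]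
        linarith
      linarith
    calc 2 * (y : ℝ) ≤ L ^ a * (1 / 2) := by linarith
      _ ≤ L ^ a * (1 + (-(2 / L))) ^ a := by
          apply mul_le_mul_of_nonneg_left _ hLap.le
          linarith
  · have hll : Real.log (Real.log d) ≤ l + 1 := by
      have h1 : Real.log (Real.log d) ≤ Real.log (L + 1) := Real.log_le_log hld0 hdup
      have h2 : Real.log (L + 1) ≤ Real.log (L * 2) := Real.log_le_log (by linarith) (by linarith)
      rw [Real.log_mul hL0.ne' (by norm_num)] at h2
      have := Real.log_two_lt_d9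
      linarith
    have hll0 : 0 < Real.log (Real.log d) := by
      apply Real.log_pos
      linarith
    rw [← mul_div_assoc, le_div_iff₀ hll0]
    have hal2 : 0 < a * l - 2 := by linarith
    have h61 : 6 ≤ (a - 1) * l := by nlinarith
    calc (k : ℝ) * Real.log (Real.log d) ≤ (c * L / (a * l - 2)) * (l + 1) :=
          mul_le_mul p8 hll hll0.le (div_nonneg (by positivity) hal2.le)
      _ ≤ 3 / 2 * (L / (a * l - 2) * (l + 1)) := by
          rw [mul_div_assoc, mul_assoc]
          exact mul_le_mul_of_nonneg_right hc2 (by positivity)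
      _ ≤ 3 / 2 * (L - 2) := by
          apply mul_le_mul_of_nonneg_left _ (by norm_num)
          rw [div_mul_eq_mul_div, div_le_iff₀ hal2]
          have := mul_le_mul_of_nonneg_left h61 hL0.le
          linarith
      _ ≤ 3 / 2 * Real.log d := mul_le_mul_of_nonneg_left hdlow (by norm_num)

end Pool.Agent.N71.SI
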