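import Pool.Agent.N71.SI.Low
import Pool.Agent.N71.SI.Par

/-!
# Short intervals: few discriminants for which products of small primes of `P` reach few classes
-/

set_option autoImplicit false

namespace Pool.Agent.N71.SI

open Finset Filter NumberField Pool.Agent.H38R2.CG Pool.Agent.H38R2.CG2 Pool.Agent.N71.SP
open Pool.Agent.R345.IX (SD_nonneg Qz_two MD_low Lone_le)
open scoped Classical

/-- number of the discriminants with a large near collision sum -/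
theorem high_cardH (r X H k Z : ℕ) (hr : r < Qz 2) (hX : 1 ≤ X) (hH : 1 ≤ H) (hHX : H ≤ X)
    (hZ : 1 ≤ Z)
    (S : Finset (Finset ℕ))
    (hS : ∀ s ∈ S, (∀ p ∈ s, p.Prime) ∧ s.card = k ∧ prodS s ≤ Z) (T : ℝ) (hT : 0 < T)
    (hc : 0 < S.card) :
    (((DD 2 r X ((H : ℝ) / X)).filter (fun D => T * ((S.card : ℝ) + (S.card : ℝ) ^ 2 *
      (H / √(X : ℝ) + Z / √(X : ℝ)) / H) <
      SD D S (fun _ => 1))).card : ℝ) ≤ 1024 * 8 ^ k * (2 + Real.log Z) * H / T := by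
  have hXr : (1 : ℝ) ≤ X := by exact_mod_cast hX
  have hX0 : (0 : ℝ) < X := by linarith
  have hHr : (1 : ℝ) ≤ H := by exact_mod_cast hH
  have hH0 : (0 : ℝ) < H := by linarith
  have hsX : 0 < √(X : ℝ) := Real.sqrt_pos.2 hX0
  have hM : (0 : ℝ) < S.card := by exact_mod_cast hc
  have hZr : (0 : ℝ) < Z := by exact_mod_cast hZ
  set M : ℝ := (S.card : ℝ) with hMdef
  set A : ℝ := M + M ^ 2 * (H / √(X : ℝ) + Z / √(X : ℝ)) / H with hA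
  have hA0 : 0 < A := by positivity
  set Bd := (DD 2 r X ((H : ℝ) / X)).filter (fun D => T * A < SD D S (fun _ => 1)) with hBd
  have h1 := avgH r X H k Z hr hX hH hHX hZ S hS
  have h2 : (Bd.card : ℝ) * (T * A) ≤ ∑ D ∈ DD 2 r X ((H : ℝ) / X), SD D S (fun _ => 1) := by
    calc (Bd.card : ℝ) * (T * A) = ∑ D ∈ Bd, (T * A) := by rw [Finset.sum_const, nsmul_eq_mul]
      _ ≤ ∑ D ∈ Bd, SD D S (fun _ => 1) :=
          Finset.sum_le_sum fun D hD => (Finset.mem_filter.1 hD).2.le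
      _ ≤ _ := Finset.sum_le_sum_of_subset_of_nonneg (Finset.filter_subset _ _)
          fun D _ _ => SD_nonneg D S
  have h3 : H * M + (H / √(X : ℝ) + Z / √(X : ℝ)) * M ^ 2 = H * A := by
    rw [hA, mul_add]
    congr 1
    field_simp
  rw [h3] at h1
  rw [le_div_iff₀ hT]
  have h4 : ((Bd.card : ℝ) * T) * A ≤ (1024 * 8 ^ k * (2 + Real.log Z) * H) * A := by
    calc ((Bd.card : ℝ) * T) * A = (Bd.card : ℝ) * (T * A) := by ring
      _ ≤ _ := h2.trans h1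
      _ = _ := by ring
  exact le_of_mul_le_mul_right h4 hA0

/-- the deterministic part: a discriminant outside of the two exceptional sets is not bad -/
theorem not_badH (hNUM : E_NUM) (hN3 : P_N3) (P : Set ℕ) (a c σ w θ η C : ℝ) (hC : 0 < C)
    (hLone : ∀ D : ℕ, IsFund D → Lone D ≤ C * (1 + Real.log D))
    (hθ0 : 0 ≤ θ) (hθ : 1 / 2 - c * (σ - 1 / a) ≤ θ) (hcθ : c - w ≤ θ) (hη : 0 < η)
    (X H D Z : ℕ) (hD : IsFund D)
    (hXH : (X : ℝ) ^ w ≤ H)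
    (hDX : D ≤ 2 * X) (hX : 1 ≤ X) (hy : 2 ≤ yS a X) (hZ : (Z : ℝ) ≤ (X : ℝ) ^ c)
    (hB : (400 : ℝ) ^ (kS a c X) ≤ (X : ℝ) ^ η)
    (h20 : 20 * kS a c X ≤ (QQ P (yS a X)).card)
    (hM : (X : ℝ) ^ (c * (σ - 1 / a) - η) ≤ ((QQ P (yS a X)).card.choose (kS a c X) : ℝ))
    (hL2 : C * (2 + Real.log X) ≤ (X : ℝ) ^ η) (h8 : 12 ≤ (X : ℝ) ^ η)
    (hlow : ((QQ P (yS a X)).card : ℝ) / 5 ≤
      ∑ p ∈ QQ P (yS a X), (1 + ((jacobiSym (D : ℤ) p : ℤ) : ℝ)))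
    (hhigh : SD D ((QQ P (yS a X)).powersetCard (kS a c X)) (fun _ => 1) ≤ (X : ℝ) ^ (4 * η) *
      (((QQ P (yS a X)).card.choose (kS a c X) : ℝ) +
        ((QQ P (yS a X)).card.choose (kS a c X) : ℝ) ^ 2 *
          (H / √(X : ℝ) + Z / √(X : ℝ)) / H)) :
    ¬ BadS P a c (θ + 8 * η) X D := by
  rintro ⟨K, i1, i2, h2, hK, hne⟩
  apply hne
  have hXr : (1 : ℝ) ≤ X := by exact_mod_cast hX
  have hX0 : (0 : ℝ) < X := by linarith
  have hH0 : (0 : ℝ) < H := lt_of_lt_of_le (Real.rpow_pos_of_pos hX0 _) hXH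
  have hsX : 0 < √(X : ℝ) := Real.sqrt_pos.2 hX0
  have hXX : √(X : ℝ) * √(X : ℝ) = X := Real.mul_self_sqrt hX0.le
  have hlogX : 0 ≤ Real.log X := Real.log_natCast_nonneg X
  set Q := QQ P (yS a X) with hQ
  set k := kS a c X with hk
  set M : ℝ := (Q.card.choose k : ℝ) with hMdef
  have hPm : ∀ p ∈ Q, p.Prime ∧ p ≠ 2 ∧ p ∈ P ∧ (p : ℝ) ≤ ((2 * yS a X : ℕ) : ℝ) := by
    intro p hp
    obtain ⟨h1, h2, h3, h4⟩ := QQ_mem hy hp
    exact ⟨h1, h2, h3, by exact_mod_cast h4⟩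
  have hR := hNUM P K D hD h2 hK Q ((2 * yS a X : ℕ) : ℝ) hPm k
  have hMD := MD_low D Q (fun p hp => ⟨(hPm p hp).1, (hPm p hp).2.1⟩) k h20 hlow
  set R : ℝ := ((Reach P K ((2 * yS a X : ℕ) : ℝ) k).ncard : ℝ) with hRdef
  set h : ℝ := (Nat.card (ClassGroup (𝓞 K)) : ℝ) with hh
  set md := MD D (Q.powersetCard k) (fun _ => 1) with hmd
  set sd := SD D (Q.powersetCard k) (fun _ => 1) with hsd
  have hR0 : 0 ≤ R := Nat.cast_nonneg _
  have hh0 : 0 ≤ h := Nat.cast_nonneg _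
  have hM0 : 0 < M := lt_of_lt_of_le (Real.rpow_pos_of_pos hX0 _) hM
  have hsd0 : 0 ≤ sd := SD_nonneg D _
  have hD1 : 1 < D := hD.1
  have hDr : (1 : ℝ) < D := by exact_mod_cast hD1
  have hDX' : (D : ℝ) ≤ 2 * X := by exact_mod_cast hDX
  have hlogD : Real.log D ≤ 1 + Real.log X := by
    have h1 : Real.log D ≤ Real.log (2 * X) := Real.log_le_log (by linarith) hDX'
    rw [Real.log_mul (by norm_num) hX0.ne'] at h1
    have := Real.log_two_lt_d9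
    linarith
  have hL0 : 0 ≤ Lone D := (hN3 K D hD h2 hK).1
  have hL : Lone D ≤ (X : ℝ) ^ η := by
    refine (hLone D hD).trans (le_trans ?_ hL2)
    apply mul_le_mul_of_nonneg_left _ hC.le
    linarith
  have hsD : √(D : ℝ) ≤ 2 * √(X : ℝ) := by
    rw [Real.sqrt_le_left (by positivity), mul_pow, Real.sq_sqrt hX0.le]
    linarith
  have hXη : 0 < (X : ℝ) ^ η := Real.rpow_pos_of_pos hX0 _
  have hX4η : 0 < (X : ℝ) ^ (4 * η) := Real.rpow_pos_of_pos hX0 _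
  have hZ0 : (0 : ℝ) ≤ Z := Nat.cast_nonneg _
  -- the inequality for h
  have h1 : h * M ^ 2 ≤ 400 ^ k * (R * (2 * (2 * √(X : ℝ)) * (X : ℝ) ^ η *
      ((X : ℝ) ^ (4 * η) * (M + M ^ 2 * (H / √(X : ℝ) + Z / √(X : ℝ)) / H)))) := by
    have e400 : (400 : ℝ) ^ k = (20 ^ k) ^ 2 := by
      rw [← pow_mul, mul_comm, pow_mul]; norm_num
    calc h * M ^ 2 ≤ h * (20 ^ k * md) ^ 2 := by gcongr
      _ = 400 ^ k * (h * md ^ 2) := by rw [e400]; ring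
      _ ≤ 400 ^ k * (R * (2 * √(D : ℝ) * Lone D * sd)) := by gcongr
      _ ≤ _ := by gcongr
  have h3 : h ≤ 400 ^ k * R * 4 * (X : ℝ) ^ η * (X : ℝ) ^ (4 * η) *
      (√(X : ℝ) / M + 1 + Z / H) := by
    have hM2 : 0 < M ^ 2 := by positivity
    refine le_of_mul_le_mul_right (h1.trans (le_of_eq ?_)) hM2
    have e1 : (√(X : ℝ) / M + 1 + Z / H) * M ^ 2 =
        √(X : ℝ) * (M + M ^ 2 * (H / √(X : ℝ) + Z / √(X : ℝ)) / H) := by
      have e2 : √(X : ℝ) * (H / √(X : ℝ) + Z / √(X : ℝ)) = H + Z := by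
        field_simp
      have e3 : √(X : ℝ) * (M + M ^ 2 * (H / √(X : ℝ) + Z / √(X : ℝ)) / H) =
          √(X : ℝ) * M + M ^ 2 * (√(X : ℝ) * (H / √(X : ℝ) + Z / √(X : ℝ))) / H := by ring
      rw [e3, e2]
      field_simp
      ring
    calc 400 ^ k * (R * (2 * (2 * √(X : ℝ)) * (X : ℝ) ^ η *
          ((X : ℝ) ^ (4 * η) * (M + M ^ 2 * (H / √(X : ℝ) + Z / √(X : ℝ)) / H))))
        = 400 ^ k * R * 4 * (X : ℝ) ^ η * (X : ℝ) ^ (4 * η) *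
          (√(X : ℝ) * (M + M ^ 2 * (H / √(X : ℝ) + Z / √(X : ℝ)) / H)) := by ring
      _ = _ := by rw [← e1]; ring
  have h4' : √(X : ℝ) / M ≤ (X : ℝ) ^ (θ + η) := by
    rw [div_le_iff₀ hM0]
    calc √(X : ℝ) = (X : ℝ) ^ (1 / 2 : ℝ) := Real.sqrt_eq_rpow _
      _ ≤ (X : ℝ) ^ ((θ + η) + (c * (σ - 1 / a) - η)) :=
          Real.rpow_le_rpow_of_exponent_le hXr (by linarith)
      _ = (X : ℝ) ^ (θ + η) * (X : ℝ) ^ (c * (σ - 1 / a) - η) := Real.rpow_add hX0 _ _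
      _ ≤ _ := by gcongr
  have h5 : (1 : ℝ) ≤ (X : ℝ) ^ (θ + η) := Real.one_le_rpow hXr (by linarith)
  have h6 : (Z : ℝ) / H ≤ (X : ℝ) ^ (θ + η) := by
    rw [div_le_iff₀ hH0]
    calc (Z : ℝ) ≤ (X : ℝ) ^ c := hZ
      _ ≤ (X : ℝ) ^ ((θ + η) + w) := Real.rpow_le_rpow_of_exponent_le hXr (by linarith)
      _ = (X : ℝ) ^ (θ + η) * (X : ℝ) ^ w := by rw [Real.rpow_add hX0]
      _ ≤ (X : ℝ) ^ (θ + η) * H := by gcongr
  calc h ≤ 400 ^ k * R * 4 * (X : ℝ) ^ η * (X : ℝ) ^ (4 * η) * (√(X : ℝ) / M + 1 + Z / H) := h3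
    _ ≤ (X : ℝ) ^ η * R * 4 * (X : ℝ) ^ η * (X : ℝ) ^ (4 * η) *
        ((X : ℝ) ^ (θ + η) + (X : ℝ) ^ (θ + η) + (X : ℝ) ^ (θ + η)) := by gcongr
    _ = ((X : ℝ) ^ η * (X : ℝ) ^ η * (X : ℝ) ^ (4 * η) * (X : ℝ) ^ (θ + η)) * 12 * R := by ring
    _ ≤ ((X : ℝ) ^ η * (X : ℝ) ^ η * (X : ℝ) ^ (4 * η) * (X : ℝ) ^ (θ + η)) * (X : ℝ) ^ η * R := by
        gcongr
    _ = (X : ℝ) ^ (θ + 8 * η) * R := by
        rw [← Real.rpow_add hX0, ← Real.rpow_add hX0, ← Real.rpow_add hX0, ← Real.rpow_add hX0]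
        congr 2
        ring

end Pool.Agent.N71.SI
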