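import Pool.Agent.N71.SI.FinA

/-!
# Short intervals: counting the exceptional discriminants
-/

set_option autoImplicit false

namespace Pool.Agent.N71.SI

open Finset Filter NumberField Pool.Agent.H38R2.CG Pool.Agent.H38R2.CG2 Pool.Agent.N71.SP
open Pool.Agent.R345.IX (SD_nonneg Qz_two MD_low Lone_le)
open scoped Classical

/-- the set where the small primes of `P` split rarely is small -/
theorem low_small (hPV' : P_PV) (P : Set ℕ) (σ : ℝ) (hσ0 : 0 < σ) (hσ1 : σ ≤ 1)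
    (hP : Many P σ) (a : ℝ) (ha : 1 < a * σ) (w : ℝ) (hw0 : 0 < w) (hw1 : w ≤ 1) :
    ∃ δ : ℝ, 0 < δ ∧ δ ≤ 1 / 32 ∧ ∀ᶠ X : ℕ in atTop, ∀ H : ℕ, (X : ℝ) ^ w ≤ H → ∀ r < Qz 2,
      (((DD 2 r X ((H : ℝ) / X)).filter (fun D : ℕ =>
        ∑ p ∈ QQ P (yS a X), (1 + ((jacobiSym (D : ℤ) p : ℤ) : ℝ)) <
          ((QQ P (yS a X)).card : ℝ) / 5)).card : ℝ) ≤ 2 * (H * (X : ℝ) ^ (-δ)) := by
  obtain ⟨C', hC', hPV⟩ := hPV'
  have ha0 : 0 < a := by
    by_contra h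
    push Not at h
    nlinarith
  obtain ⟨κ, hκ⟩ : ∃ κ : ℝ, κ = w / 4 := ⟨_, rfl⟩
  have hκ0 : 0 < κ := by rw [hκ]; positivity
  have hκ1 : κ ≤ 1 / 4 := by rw [hκ]; linarith
  obtain ⟨τ, hτ⟩ : ∃ τ : ℝ, τ = σ - 1 / a := ⟨_, rfl⟩
  have hτ0 : 0 < τ := by
    rw [hτ, sub_pos, div_lt_iff₀ ha0]
    linarith
  have hτ1 : τ ≤ 1 := by
    rw [hτ]
    have : 0 < 1 / a := by positivity
    linarith
  obtain ⟨δ0, hδ0⟩ : ∃ δ0 : ℝ, δ0 = κ * τ / 4 := ⟨_, rfl⟩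
  have hδ0pos : 0 < δ0 := by rw [hδ0]; positivity
  have hδ0κ : δ0 ≤ κ / 4 := by
    rw [hδ0]
    have := mul_le_mul_of_nonneg_left hτ1 hκ0.le
    linarith
  refine ⟨δ0 / 2, by positivity, by linarith, ?_⟩
  have hpar := parG P σ hσ0 hσ1 hP a κ ha hκ0 (by linarith) δ0 16 hδ0pos (by norm_num)
  have hc3 := ERRh.ev_const (κ / 4) (by positivity) C'
  have hlog2 := ERRh.ev_log (κ / 4) (by positivity)
  filter_upwards [hpar, hc3, hlog2, eventually_ge_atTop 1] with X hX hk3 hl2 hX1 H hXH r hr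
  obtain ⟨q1, q2, q3, q4, q5, q6, q7, q8, q9, -⟩ := hX
  have hXr : (1 : ℝ) ≤ X := by exact_mod_cast hX1
  have hX0 : (0 : ℝ) < X := by linarith
  have hlogX : 0 ≤ Real.log X := Real.log_natCast_nonneg X
  set y := yS a X with hy
  set j := kS a κ X with hj
  set Q := QQ P y with hQ
  set m := Q.card / (2 * j) with hm
  have hPm : ∀ p ∈ Q, p.Prime ∧ p ≠ 2 ∧ p ≤ 2 * y := by
    intro p hp
    obtain ⟨h1, h2, h3, h4⟩ := QQ_mem q1 hp
    exact ⟨h1, h2, h4⟩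
  have h1 := low_setH C' hC' hPV r X H m j (2 * y) hr hX1 Q hPm q7 (by
      rw [hm]
      exact Nat.mul_div_le _ _) (by omega)
  have hsub : (((DD 2 r X ((H : ℝ) / X)).filter (fun D : ℕ =>
        ∑ p ∈ Q, (1 + ((jacobiSym (D : ℤ) p : ℤ) : ℝ)) < (Q.card : ℝ) / 5)).card : ℝ) ≤
      (((DD 2 r X ((H : ℝ) / X)).filter (fun D : ℕ =>
        ∑ p ∈ Q, (1 + ((jacobiSym (D : ℤ) p : ℤ) : ℝ)) < (j : ℝ) * m / 2)).card : ℝ) := by
    have : ((DD 2 r X ((H : ℝ) / X)).filter (fun D : ℕ =>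
        ∑ p ∈ Q, (1 + ((jacobiSym (D : ℤ) p : ℤ) : ℝ)) < (Q.card : ℝ) / 5)) ⊆
      ((DD 2 r X ((H : ℝ) / X)).filter (fun D : ℕ =>
        ∑ p ∈ Q, (1 + ((jacobiSym (D : ℤ) p : ℤ) : ℝ)) < (j : ℝ) * m / 2)) := by
      intro D hD
      rw [Finset.mem_filter] at hD ⊢
      refine ⟨hD.1, lt_of_lt_of_le hD.2 ?_⟩
      have h1 : Q.card < 2 * j * (m + 1) := by
        rw [hm]
        exact Nat.lt_mul_div_succ _ (by omega)
      have h2 : (Q.card : ℝ) < 2 * j * (m + 1) := by exact_mod_cast h1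
      have h4' : (80 : ℝ) * j ≤ Q.card := by exact_mod_cast q4
      linarith
    exact_mod_cast Finset.card_le_card this
  refine hsub.trans (h1.trans ?_)
  have hXd : 0 < (X : ℝ) ^ δ0 := Real.rpow_pos_of_pos hX0 _
  have hH0 : (0 : ℝ) < H := lt_of_lt_of_le (Real.rpow_pos_of_pos hX0 _) hXH
  have hmj : H / (m : ℝ) ^ j ≤ H * (X : ℝ) ^ (-(2 * δ0)) := by
    have hmjpos : 0 < (m : ℝ) ^ j := lt_of_lt_of_le (Real.rpow_pos_of_pos hX0 _) q8
    rw [div_le_iff₀ hmjpos]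
    have h2 : (X : ℝ) ^ (2 * δ0) ≤ (m : ℝ) ^ j := by
      refine le_trans ?_ q8
      apply Real.rpow_le_rpow_of_exponent_le hXr
      rw [← hτ]
      have : κ * τ = 4 * δ0 := by rw [hδ0]; ring
      linarith
    calc (H : ℝ) = H * (X : ℝ) ^ (-(2 * δ0)) * (X : ℝ) ^ (2 * δ0) := by
          rw [mul_assoc, ← Real.rpow_add hX0, neg_add_cancel, Real.rpow_zero, mul_one]
      _ ≤ H * (X : ℝ) ^ (-(2 * δ0)) * (m : ℝ) ^ j := by gcongr
  have hsec : C' * ((2 * y : ℕ) : ℝ) ^ j * (2 * j * Real.log ((2 * y : ℕ) : ℝ)) ≤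
      H * (X : ℝ) ^ (-(2 * δ0)) := by
    have e5 : ((2 * y : ℕ) : ℝ) = 2 * y := by push_cast; ring
    have hjl : (2 * j : ℝ) * Real.log ((2 * y : ℕ) : ℝ) ≤ (X : ℝ) ^ (κ / 4) := by
      have h3 : (j : ℝ) * Real.log ((2 * y : ℕ) : ℝ) ≤ κ * Real.log X := by
        rw [e5]; exact q9
      have h4 : κ * Real.log X ≤ 1 / 4 * Real.log X := mul_le_mul_of_nonneg_right hκ1 hlogX
      linarith
    have hjl0 : 0 ≤ (2 * j : ℝ) * Real.log ((2 * y : ℕ) : ℝ) := by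
      have h2 : 0 ≤ Real.log ((2 * y : ℕ) : ℝ) := Real.log_natCast_nonneg _
      positivity
    calc C' * ((2 * y : ℕ) : ℝ) ^ j * (2 * j * Real.log ((2 * y : ℕ) : ℝ))
        ≤ (X : ℝ) ^ (κ / 4) * (X : ℝ) ^ κ * (X : ℝ) ^ (κ / 4) := by gcongr
      _ = (X : ℝ) ^ (κ / 4 + κ + κ / 4) := by rw [Real.rpow_add hX0, Real.rpow_add hX0]
      _ ≤ (X : ℝ) ^ (w + -(2 * δ0)) := by
          apply Real.rpow_le_rpow_of_exponent_le hXr
          have : w = 4 * κ := by rw [hκ]; ring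
          linarith
      _ = (X : ℝ) ^ w * (X : ℝ) ^ (-(2 * δ0)) := Real.rpow_add hX0 _ _
      _ ≤ _ := by gcongr
  have hsec0 : 0 ≤ C' * ((2 * y : ℕ) : ℝ) ^ j * (2 * j * Real.log ((2 * y : ℕ) : ℝ)) := by
    have h2 : 0 ≤ Real.log ((2 * y : ℕ) : ℝ) := Real.log_natCast_nonneg _
    positivity
  calc (16 : ℝ) ^ j * (H / (m : ℝ) ^ j +
        C' * ((2 * y : ℕ) : ℝ) ^ j * (2 * j * Real.log ((2 * y : ℕ) : ℝ)))
      ≤ (X : ℝ) ^ δ0 * (H * (X : ℝ) ^ (-(2 * δ0)) + H * (X : ℝ) ^ (-(2 * δ0))) := by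
        gcongr
    _ = 2 * (H * ((X : ℝ) ^ δ0 * (X : ℝ) ^ (-(2 * δ0)))) := by ring
    _ = 2 * (H * (X : ℝ) ^ (-δ0)) := by
        rw [← Real.rpow_add hX0]
        congr 3
        ring
    _ ≤ 2 * (H * (X : ℝ) ^ (-(δ0 / 2))) := by
        have := Real.rpow_le_rpow_of_exponent_le hXr (show -δ0 ≤ -(δ0 / 2) by linarith)
        gcongr

/-- few exceptional discriminants in a short interval -/
theorem count_badH (hNUM : E_NUM) (hN3 : P_N3) (hN3a : P_N3a)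
    (hPV' : P_PV) (P : Set ℕ) (σ : ℝ) (hσ0 : 0 < σ) (hσ1 : σ ≤ 1) (hP : Many P σ) (a : ℝ)
    (ha : 1 < a * σ) (c w θ : ℝ) (hc0 : 0 < c) (hc2 : c ≤ 3 / 2) (hw0 : 0 < w) (hw1 : w ≤ 1)
    (hθ0 : 0 ≤ θ)
    (hθ : 1 / 2 - c * (σ - 1 / a) ≤ θ) (hcθ : c - w ≤ θ) (ε : ℝ)
    (hε : 0 < ε) : ∃ δ : ℝ, 0 < δ ∧ δ ≤ 1 / 64 ∧ ∃ X0 : ℕ, ∀ X ≥ X0, ∀ H : ℕ,
    (X : ℝ) ^ w ≤ H → H ≤ X →
    (((Finset.Ioc X (X + H)).filter (fun D => IsFund D ∧
      BadS P a c (θ + ε) X D)).card : ℝ) ≤ H * (X : ℝ) ^ (-δ) := by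
  obtain ⟨C, hC, hLone⟩ := Lone_le hN3a
  obtain ⟨δ0, hδ0pos, hδ0le, hlow0⟩ := low_small hPV' P σ hσ0 hσ1 hP a ha w hw0 hw1
  have ha0 : 0 < a := by
    by_contra h
    push Not at h
    nlinarith
  set η : ℝ := min (ε / 20) (δ0 / 4) with hη
  have hηpos : 0 < η := lt_min (by positivity) (by positivity)
  have hη1 : η ≤ ε / 20 := min_le_left _ _
  have hη2 : η ≤ δ0 / 4 := min_le_right _ _
  refine ⟨η / 2, by positivity, by linarith, ?_⟩
  rw [← Filter.eventually_atTop]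
  have hpar := parG P σ hσ0 hσ1 hP a c ha hc0 hc2 η 400 hηpos (by norm_num)
  have hlog1 := ERRh.ev_log (η / 2) (by positivity)
  have hc1 := ERRh.ev_const (η / 2) (by positivity) (max (4096 * C) 4096)
  have hc2' := ERRh.ev_const (η / 2) (by positivity) (max (2 * C) 48)
  filter_upwards [hpar, hlow0, hlog1, hc1, hc2', eventually_ge_atTop 1] with X hX hlowX hl1 hk1 hk2
    hX1 H hXH hHX
  obtain ⟨q1, q2, q3, q4, q5, q6, -, -, q9, -⟩ := hX
  have hXr : (1 : ℝ) ≤ X := by exact_mod_cast hX1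
  have hX0 : (0 : ℝ) < X := by linarith
  have hH0 : (0 : ℝ) < H := lt_of_lt_of_le (Real.rpow_pos_of_pos hX0 _) hXH
  have hH1 : 1 ≤ H := by
    have : 0 < H := by exact_mod_cast hH0
    omega
  have hlogX : 0 ≤ Real.log X := Real.log_natCast_nonneg X
  set y := yS a X with hy
  set k := kS a c X with hk
  set Q := QQ P y with hQ
  set M : ℝ := (Q.card.choose k : ℝ) with hM
  set Z : ℕ := (2 * y) ^ k with hZ
  have hZ1 : 1 ≤ Z := Nat.one_le_pow _ _ (by omega)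
  have hZr : (Z : ℝ) ≤ (X : ℝ) ^ c := by
    rw [hZ, Nat.cast_pow]
    exact q2
  have hlogZ : Real.log Z ≤ 3 / 2 * Real.log X := by
    have e1 : Real.log Z = (k : ℝ) * Real.log (2 * y) := by
      rw [hZ]
      push_cast
      rw [Real.log_pow]
    rw [e1]
    exact q9.trans (mul_le_mul_of_nonneg_right hc2 hlogX)
  have hhalf : (X : ℝ) ^ (η / 2) * (X : ℝ) ^ (η / 2) = (X : ℝ) ^ η := by
    rw [← Real.rpow_add hX0]; congr 1; ring
  have hXh : 0 < (X : ℝ) ^ (η / 2) := Real.rpow_pos_of_pos hX0 _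
  have hXη : 0 < (X : ℝ) ^ η := Real.rpow_pos_of_pos hX0 _
  have hXh1 : 1 ≤ (X : ℝ) ^ (η / 2) := Real.one_le_rpow hXr (by positivity)
  have hXhη : (X : ℝ) ^ (η / 2) ≤ (X : ℝ) ^ η := Real.rpow_le_rpow_of_exponent_le hXr (by linarith)
  have hPm : ∀ p ∈ Q, p.Prime ∧ p ≠ 2 ∧ p ≤ 2 * y := by
    intro p hp
    obtain ⟨h1, h2, h3, h4⟩ := QQ_mem q1 hp
    exact ⟨h1, h2, h4⟩
  -- the two exceptional sets for each residue class
  let Low : ℕ → Finset ℕ := fun r => (DD 2 r X ((H : ℝ) / X)).filter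
    (fun D : ℕ => ∑ p ∈ Q, (1 + ((jacobiSym (D : ℤ) p : ℤ) : ℝ)) < (Q.card : ℝ) / 5)
  let High : ℕ → Finset ℕ := fun r => (DD 2 r X ((H : ℝ) / X)).filter
    (fun D : ℕ => (X : ℝ) ^ (4 * η) * (((Q.powersetCard k).card : ℝ) +
      ((Q.powersetCard k).card : ℝ) ^ 2 * (H / √(X : ℝ) + Z / √(X : ℝ)) / H) <
        SD D (Q.powersetCard k) (fun _ => 1))
  have hcardS : ((Q.powersetCard k).card : ℝ) = M := by rw [Finset.card_powersetCard, hM]
  have hcardS0 : 0 < (Q.powersetCard k).card := by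
    rw [Finset.card_powersetCard]
    exact Nat.choose_pos (by omega)
  -- cardinality of Low
  have hLow : ∀ r < Qz 2, ((Low r).card : ℝ) ≤ 2 * (H * (X : ℝ) ^ (-η)) := by
    intro r hr
    refine (hlowX H hXH r hr).trans ?_
    have := Real.rpow_le_rpow_of_exponent_le hXr (show -δ0 ≤ -η by linarith)
    gcongr
  -- cardinality of High
  have hHigh : ∀ r < Qz 2, ((High r).card : ℝ) ≤ H * (X : ℝ) ^ (-η) := by
    intro r hr
    have hS : ∀ s ∈ Q.powersetCard k, (∀ p ∈ s, p.Prime) ∧ s.card = k ∧ prodS s ≤ Z := by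
      intro s hs
      obtain ⟨hs1, hs2⟩ := Finset.mem_powersetCard.1 hs
      refine ⟨fun p hp => (hPm p (hs1 hp)).1, hs2, ?_⟩
      unfold prodS
      rw [hZ, ← hs2]
      exact Finset.prod_le_pow_card _ _ _ fun p hp => (hPm p (hs1 hp)).2.2
    have h1 := high_cardH r X H k Z hr hX1 hH1 hHX hZ1 (Q.powersetCard k) hS ((X : ℝ) ^ (4 * η))
      (Real.rpow_pos_of_pos hX0 _) hcardS0
    refine h1.trans ?_
    rw [div_le_iff₀ (Real.rpow_pos_of_pos hX0 _), mul_assoc (H : ℝ), ← Real.rpow_add hX0]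
    have h8 : (8 : ℝ) ^ k ≤ (X : ℝ) ^ η :=
      (pow_le_pow_left₀ (by norm_num) (by norm_num) _).trans q3
    have h4096 : (4096 : ℝ) ≤ (X : ℝ) ^ (η / 2) := (le_max_right _ _).trans hk1
    have hlz : 2 + Real.log Z ≤ 2 * (1 + Real.log X) := by linarith
    calc 1024 * 8 ^ k * (2 + Real.log Z) * H
        ≤ 1024 * 8 ^ k * (2 * (1 + Real.log X)) * H := by gcongr
      _ = 2048 * 8 ^ k * (1 + Real.log X) * H := by ring
      _ ≤ 4096 * 8 ^ k * (1 + Real.log X) * H := by gcongr; norm_num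
      _ ≤ (X : ℝ) ^ (η / 2) * (X : ℝ) ^ η * (X : ℝ) ^ (η / 2) * H := by gcongr
      _ = H * (X : ℝ) ^ (η / 2 + η + η / 2) := by
          rw [Real.rpow_add hX0, Real.rpow_add hX0]
          ring
      _ ≤ _ := by
          have := Real.rpow_le_rpow_of_exponent_le hXr
            (show η / 2 + η + η / 2 ≤ -η + 4 * η by linarith)
          gcongr
  -- covering
  have hcover : ((Finset.Ioc X (X + H)).filter (fun D => IsFund D ∧
      BadS P a c (θ + ε) X D)) ⊆ (Finset.range 16).biUnion (fun r => Low r ∪ High r) := by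
    intro D hD
    obtain ⟨hD1, hD2, hD3⟩ := Finset.mem_filter.1 hD
    obtain ⟨hDa, hDb⟩ := Finset.mem_Ioc.1 hD1
    rw [Finset.mem_biUnion]
    refine ⟨D % 16, Finset.mem_range.2 (Nat.mod_lt _ (by norm_num)), ?_⟩
    have hDD : D ∈ DD 2 (D % 16) X ((H : ℝ) / X) := by
      unfold DD
      rw [Finset.mem_filter, Finset.mem_Ioc, floor_H hX1, Qz_two]
      exact ⟨⟨hDa, hDb⟩, rfl⟩
    by_contra hcon
    rw [Finset.mem_union, not_or] at hcon
    obtain ⟨hc1', hc2'⟩ := hcon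
    have hlow5 : ((Q.card : ℕ) : ℝ) / 5 ≤ ∑ p ∈ Q, (1 + ((jacobiSym (D : ℤ) p : ℤ) : ℝ)) := by
      by_contra h
      exact hc1' (Finset.mem_filter.2 ⟨hDD, not_le.1 h⟩)
    have hhigh' : SD D (Q.powersetCard k) (fun _ => 1) ≤ (X : ℝ) ^ (4 * η) *
        (((Q.powersetCard k).card : ℝ) + ((Q.powersetCard k).card : ℝ) ^ 2 *
          (H / √(X : ℝ) + Z / √(X : ℝ)) / H) := by
      by_contra h
      exact hc2' (Finset.mem_filter.2 ⟨hDD, not_le.1 h⟩)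
    rw [hcardS] at hhigh'
    have h20 : 20 * k ≤ Q.card := by omega
    have hDX : D ≤ 2 * X := by omega
    have hnb := not_badH hNUM hN3 P a c σ w θ η C hC hLone hθ0 hθ hcθ hηpos X H D Z hD2 hXH
      hDX hX1 q1
      hZr q3 h20 q6 (by
        have h2C : 2 * C ≤ (X : ℝ) ^ (η / 2) := (le_max_left _ _).trans hk2
        have h1 : 2 + Real.log X ≤ 2 * (1 + Real.log X) := by linarith
        calc C * (2 + Real.log X) ≤ C * (2 * (1 + Real.log X)) := by gcongr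
          _ = (2 * C) * (1 + Real.log X) := by ring
          _ ≤ (X : ℝ) ^ (η / 2) * (X : ℝ) ^ (η / 2) := by gcongr
          _ = _ := hhalf) (by
        have h48 : (48 : ℝ) ≤ (X : ℝ) ^ (η / 2) := (le_max_right _ _).trans hk2
        linarith) hlow5 hhigh'
    apply hnb
    obtain ⟨K, i1, i2, g1, g2, g3⟩ := hD3
    refine ⟨K, i1, i2, g1, g2, fun hcon => g3 (hcon.trans ?_)⟩
    have : (X : ℝ) ^ (θ + 8 * η) ≤ (X : ℝ) ^ (θ + ε) :=
      Real.rpow_le_rpow_of_exponent_le hXr (by linarith)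
    gcongr
  have hfin : ((((Finset.range 16).biUnion (fun r => Low r ∪ High r)).card : ℕ) : ℝ) ≤
      48 * (H * (X : ℝ) ^ (-η)) := by
    have h1 : (((Finset.range 16).biUnion (fun r => Low r ∪ High r)).card : ℝ) ≤
        ∑ r ∈ Finset.range 16, ((Low r ∪ High r).card : ℝ) := by
      exact_mod_cast Finset.card_biUnion_le
    refine h1.trans ?_
    have h2 : ∀ r ∈ Finset.range 16, ((Low r ∪ High r).card : ℝ) ≤ 3 * (H * (X : ℝ) ^ (-η)) := by
      intro r hr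
      have hr' : r < Qz 2 := by rw [Qz_two]; exact Finset.mem_range.1 hr
      have h3 : ((Low r ∪ High r).card : ℝ) ≤ (Low r).card + (High r).card := by
        exact_mod_cast Finset.card_union_le _ _
      have := hLow r hr'
      have := hHigh r hr'
      linarith
    refine (Finset.sum_le_sum h2).trans ?_
    rw [Finset.sum_const, Finset.card_range, nsmul_eq_mul]
    push_cast
    linarith
  have hcard : (((Finset.Ioc X (X + H)).filter (fun D => IsFund D ∧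
      BadS P a c (θ + ε) X D)).card : ℝ) ≤
      ((((Finset.range 16).biUnion (fun r => Low r ∪ High r)).card : ℕ) : ℝ) := by
    exact_mod_cast Finset.card_le_card hcover
  refine hcard.trans (hfin.trans ?_)
  have h48 : (48 : ℝ) ≤ (X : ℝ) ^ (η / 2) := (le_max_right _ _).trans hk2
  calc 48 * (H * (X : ℝ) ^ (-η)) ≤ (X : ℝ) ^ (η / 2) * (H * (X : ℝ) ^ (-η)) := by gcongr
    _ = H * ((X : ℝ) ^ (η / 2) * (X : ℝ) ^ (-η)) := by ring
    _ = H * (X : ℝ) ^ (-(η / 2)) := by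
        rw [← Real.rpow_add hX0]
        congr 2
        ring

end Pool.Agent.N71.SI
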